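import Pool.Agent.Helper61.QE.St6

/-!
# Project QD, PART E: EFD (independence of the fundamental domain)
-/

open MeasureTheory Set Filter Topology Complex
open scoped ContDiff ComplexConjugate ENNReal

namespace Pool.Agent.Helper82.QE

open Pool.Agent.Helper68.QC Pool.Agent.Helper61.QE

theorem pEFD (hRPG : StRPG) (hEFI : StEFI) : StEFD := by
  intro Γ _ s F F' μ k hs hF hF' hk hμ hinv
  obtain ⟨ρ, hρ⟩ := hRPG Γ s μ k hk hμ hinv
  exact hEFI Γ s F F' μ ρ hs hF hF' hρ

end Pool.Agent.Helper82.QE
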