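import Pool.Agent.Helper61.QE.St2

/-!
# Project QD, PART E: HUR (stability of the outer domain)
-/

open MeasureTheory Set Filter Topology Complex
open scoped ContDiff ComplexConjugate ENNReal

namespace Pool.Agent.Helper82.QE

open Pool.Agent.Helper68.QC Pool.Agent.Helper61.QE

theorem pHUR (hGRW : StGRW) : StHUR := by
  intro U G P hG hP hinj hP0 hlim x u hu hxu
  have hx0 : x ≠ 0 := by
    intro h
    rw [h, zero_mul] at hxu
    exact zero_ne_one hxu
  have hPu : P u = x⁻¹ := eq_inv_of_mul_eq_one_right hxu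
  have hPu0 : P u ≠ 0 := by rw [hPu]; exact inv_ne_zero hx0
  have hu0 : u ≠ 0 := by
    intro h
    rw [h, hP0] at hPu0
    exact hPu0 rfl
  have hDo : IsOpen D := Metric.isOpen_ball
  have hopen : IsOpen (D ∩ {0}ᶜ) := hDo.inter isOpen_compl_singleton
  obtain ⟨r, hr, hrs⟩ := Metric.nhds_basis_closedBall.mem_iff.1
    (hopen.mem_nhds ⟨hu, by simpa using hu0⟩)
  have hrD : Metric.closedBall u r ⊆ D := fun z hz => (hrs hz).1
  have hPc : ContinuousOn P D := hP.continuousOn
  -- the minimum on the circle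
  have hsc : IsCompact (Metric.sphere u r) := isCompact_sphere u r
  have hsn : (Metric.sphere u r).Nonempty := NormedSpace.sphere_nonempty.2 hr.le
  have hsD : Metric.sphere u r ⊆ D := Metric.sphere_subset_closedBall.trans hrD
  have hcont : ContinuousOn (fun z => ‖P z - P u‖) (Metric.sphere u r) :=
    ((hPc.mono hsD).sub continuousOn_const).norm
  obtain ⟨z0, hz0, hmin⟩ := hsc.exists_isMinOn hsn hcont
  set m : ℝ := ‖P z0 - P u‖ with hm
  have hm0 : 0 < m := by
    rw [hm, norm_pos_iff, sub_ne_zero]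
    intro h
    have h1 := hinj (hsD hz0) hu h
    rw [h1, Metric.mem_sphere, dist_self] at hz0
    exact hr.ne hz0
  have hmle : ∀ z ∈ Metric.sphere u r, m ≤ ‖P z - P u‖ := fun z hz => hmin hz
  -- uniform convergence
  have hun : TendstoUniformlyOn (fun n => PG (G n)) P (U : Filter ℕ) (Metric.closedBall u r) :=
    (tendstoLocallyUniformlyOn_iff_forall_isCompact hDo).1 hlim _ hrD (isCompact_closedBall u r)
  have hev := (Metric.tendstoUniformlyOn_iff.1 hun) (m / 8) (by positivity)
  -- the inverse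
  have hci : ContinuousAt (fun y : ℂ => y⁻¹) x := continuousAt_inv₀ hx0
  obtain ⟨ε, hε, hεs⟩ := Metric.continuousAt_iff.1 hci (m / 8) (by positivity)
  refine ⟨ε, hε, ?_⟩
  filter_upwards [hev] with n hn y hy
  have hdu : dist (P u) (PG (G n) u) < m / 8 := hn u (Metric.mem_closedBall_self hr.le)
  obtain ⟨⟨hd, hi, -⟩, -⟩ := hGRW 1 (G n) (hG n)
  have hfr : ∃ᶠ z in 𝓝 u, PG (G n) z ≠ PG (G n) u := by
    intro hcon
    have h1 : ∀ᶠ z in 𝓝 u, z = u := by
      filter_upwards [hcon, hDo.mem_nhds hu] with z hz hzD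
      have h2 : PG (G n) z = PG (G n) u := by
        by_contra h3
        exact hz h3
      exact hi hzD hu h2
    have h4 : ∀ᶠ z in 𝓝[≠] u, z = u := h1.filter_mono nhdsWithin_le_nhds
    obtain ⟨z, hz1, hz2⟩ := (h4.and self_mem_nhdsWithin).exists
    exact hz2 hz1
  have hcirc : ∀ z ∈ Metric.sphere u r, m / 2 ≤ ‖PG (G n) z - PG (G n) u‖ := by
    intro z hz
    have h1 := hmle z hz
    have h2 : dist (P z) (PG (G n) z) < m / 8 := hn z (Metric.sphere_subset_closedBall hz)
    rw [dist_eq_norm] at h2 hdu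
    have h3 : ‖P z - P u‖ ≤ ‖P z - PG (G n) z‖ + ‖PG (G n) z - PG (G n) u‖
        + ‖P u - PG (G n) u‖ := by
      have e : P z - P u = (P z - PG (G n) z) + (PG (G n) z - PG (G n) u)
          - (P u - PG (G n) u) := by ring
      rw [e]
      refine (norm_sub_le _ _).trans ?_
      gcongr
      exact norm_add_le _ _
    linarith
  have hsub := (hd.diffContOnCl_ball hrD).ball_subset_image_closedBall hr hcirc hfr
  have hyi : y⁻¹ ∈ Metric.ball (PG (G n) u) (m / 2 / 2) := by
    have h1 : dist y⁻¹ x⁻¹ < m / 8 := hεs hy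
    rw [Metric.mem_ball]
    calc dist y⁻¹ (PG (G n) u) ≤ dist y⁻¹ (P u) + dist (P u) (PG (G n) u) := dist_triangle _ _ _
      _ < m / 8 + m / 8 := by
        rw [hPu] at hdu ⊢
        exact add_lt_add h1 hdu
      _ = m / 2 / 2 := by ring
  obtain ⟨v, hv, hvy⟩ := hsub hyi
  have hv2 := hrs hv
  refine ⟨v, hv2.1, hv2.2, ?_⟩
  have h5 : (G n v⁻¹)⁻¹ = y⁻¹ := hvy
  exact (inv_injective h5).symm

end Pool.Agent.Helper82.QE
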